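import Pool.Agent.H68.L.R_seed8.W313.HB.Stm
import Pool.Agent.H68.L.R_seed8.W313.BMX.Alg
import Pool.Agent.H68.L.R_seed8.W108.BMX.Two
import Pool.Agent.H68.L.R_seed8.W975.BMX.Two

set_option autoImplicit false

/-! Project HB, part BILT: the Hilbert symbol at `2` is bilinear. -/

namespace Pool.Agent.W864.HBm

open Pool.Agent.W313.BMX

/-- representatives of the square classes -/
def reps : List ℤ := [1, 3, 5, 7, 2, 6, 10, 14]

/-- the exponent of `2` -/
def al (r : ℤ) : ℤ := if r % 2 = 1 then 0 else 1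

/-- the odd part -/
def un (r : ℤ) : ℤ := if r % 2 = 1 then r else r / 2

/-- the Hilbert symbol at `2` of representatives -/
def hs (r s : ℤ) : Bool :=
  decide (((un r - 1) / 2 * ((un s - 1) / 2) + al r * ((un s * un s - 1) / 8) +
    al s * ((un r * un r - 1) / 8)) % 2 = 0)

/-- removal of a factor `4` -/
def w4 (n : ℤ) : ℤ := if n % 4 = 0 then n / 4 else n

/-- the representative of a product of two representatives -/
def rp (n : ℤ) : ℤ := if w4 n % 2 = 1 then w4 n % 8 else 2 * ((w4 n / 2) % 8)

/-- `n` is `r` up to squares -/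
def Rep (n r : ℤ) : Prop := ∃ d : ℚ_[2], d ≠ 0 ∧ (n : ℚ_[2]) = (r : ℚ_[2]) * d ^ 2

theorem odd_rep {w : ℤ} (h : w % 2 = 1) : Rep w (w % 8) := by
  obtain ⟨s, hs⟩ := Pool.Agent.W975.BMX.two1 w (w % 8) h (by omega)
  have h1 : (w % 8) ≠ 0 := by omega
  have h2 : w ≠ 0 := by omega
  have h1' : ((w % 8 : ℤ) : ℚ_[2]) ≠ 0 := by exact_mod_cast h1
  have h2' : (w : ℚ_[2]) ≠ 0 := by exact_mod_cast h2
  have hs0 : s ≠ 0 := by
    rintro rfl
    rw [Int.cast_mul, mul_zero] at hs
    exact (mul_ne_zero h2' h1') hs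
  refine ⟨s / ((w % 8 : ℤ) : ℚ_[2]), div_ne_zero hs0 h1', ?_⟩
  rw [Int.cast_mul] at hs
  field_simp
  linear_combination hs

theorem rep_two {m r : ℤ} (h : Rep m r) : Rep (2 * m) (2 * r) := by
  obtain ⟨d, hd, h⟩ := h
  refine ⟨d, hd, ?_⟩
  push_cast
  rw [h]
  ring

theorem rep_four {m r : ℤ} (h : Rep m r) : Rep (4 * m) r := by
  obtain ⟨d, hd, h⟩ := h
  refine ⟨2 * d, mul_ne_zero two_ne_zero hd, ?_⟩
  push_cast
  rw [h]
  ring

theorem rep_mul {m n r s : ℤ} (h : Rep m r) (h' : Rep n s) : Rep (m * n) (r * s) := by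
  obtain ⟨d, hd, h⟩ := h
  obtain ⟨e, he, h'⟩ := h'
  refine ⟨d * e, mul_ne_zero hd he, ?_⟩
  push_cast
  rw [h, h']
  ring

theorem rep_trans {m n r : ℤ} (h : Rep m n) (h' : Rep n r) : Rep m r := by
  obtain ⟨d, hd, h⟩ := h
  obtain ⟨e, he, h'⟩ := h'
  refine ⟨d * e, mul_ne_zero hd he, ?_⟩
  rw [h, h']
  ring

theorem mod8_mem {w : ℤ} (h : w % 2 = 1) : w % 8 ∈ reps ∧ 2 * (w % 8) ∈ reps := by
  have : w % 8 = 1 ∨ w % 8 = 3 ∨ w % 8 = 5 ∨ w % 8 = 7 := by omega
  rcases this with h | h | h | h <;> rw [h] <;> decide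

theorem rep_exists (n : ℤ) (hn : n ≠ 0) : ∃ r ∈ reps, Rep n r := by
  induction hk : n.natAbs using Nat.strong_induction_on generalizing n with
  | _ k ih =>
    by_cases h4 : n % 4 = 0
    · obtain ⟨r, hr, h⟩ := ih (n / 4).natAbs (by omega) (n / 4) (by omega) rfl
      refine ⟨r, hr, ?_⟩
      have e : n = 4 * (n / 4) := by omega
      rw [e]
      exact rep_four h
    · by_cases h2 : n % 2 = 1
      · exact ⟨n % 8, (mod8_mem h2).1, odd_rep h2⟩
      · have h3 : (n / 2) % 2 = 1 := by omega
        refine ⟨2 * ((n / 2) % 8), (mod8_mem h3).2, ?_⟩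
        have e : n = 2 * (n / 2) := by omega
        conv_lhs => rw [e]
        exact rep_two (odd_rep h3)

theorem rep_rp {n : ℤ} (h : w4 n % 2 = 1 ∨ w4 n % 4 = 2) : Rep n (rp n) := by
  have h1 : Rep (w4 n) (rp n) := by
    unfold rp
    split_ifs with h2
    · exact odd_rep h2
    · have h3 : (w4 n / 2) % 2 = 1 := by omega
      have e : w4 n = 2 * (w4 n / 2) := by omega
      conv_lhs => rw [e]
      exact rep_two (odd_rep h3)
  by_cases h4 : n % 4 = 0
  · have e : n = 4 * w4 n := by
      unfold w4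
      rw [if_pos h4]
      omega
    have h5 := rep_four h1
    rw [← e] at h5
    exact h5
  · have e : w4 n = n := by
      unfold w4
      rw [if_neg h4]
    rw [e] at h1
    exact h1

theorem splits_rep {a b r s : ℤ} (ha : Rep a r) (hb : Rep b s) :
    Splits (a : ℚ_[2]) (b : ℚ_[2]) ↔ Splits (r : ℚ_[2]) (s : ℚ_[2]) := by
  obtain ⟨d, hd, h⟩ := ha
  obtain ⟨e, he, h'⟩ := hb
  rw [h, h', splits_mul_sq hd, splits_comm, splits_mul_sq he, splits_comm]

theorem pos (r s x y w : ℤ) (k : ℕ) (hx : x ≠ 0 ∨ y ≠ 0) (hw : w % 8 = 1)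
    (h : r * x ^ 2 + s * y ^ 2 = (2 ^ k) ^ 2 * w) : Splits (r : ℚ_[2]) (s : ℚ_[2]) := by
  obtain ⟨z, hz⟩ := Pool.Agent.W108.BMX.sq_of_mod hw
  refine ⟨x, y, 2 ^ k * z, ?_, ?_⟩
  · rcases hx with hx | hx
    · exact Or.inl (by exact_mod_cast hx)
    · exact Or.inr (Or.inl (by exact_mod_cast hx))
  · rw [mul_pow, hz]
    have h1 := congrArg (fun t : ℤ => (t : ℚ_[2])) h
    push_cast at h1
    rw [h1]

theorem neg (r s : ℤ)
    (h1 : ∀ Y Z : ZMod 16, Z ^ 2 ≠ (r : ZMod 16) * 1 ^ 2 + (s : ZMod 16) * Y ^ 2)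
    (h2 : ∀ X Z : ZMod 16, Z ^ 2 ≠ (r : ZMod 16) * X ^ 2 + (s : ZMod 16) * 1 ^ 2)
    (h3 : ∀ X Y : ZMod 16, 1 ^ 2 ≠ (r : ZMod 16) * X ^ 2 + (s : ZMod 16) * Y ^ 2) :
    ¬ Splits (r : ℚ_[2]) (s : ℚ_[2]) := by
  intro h
  exact Pool.Agent.W108.BMX.no_sol _ _ h1 h2 h3 (Pool.Agent.W108.BMX.to_zmod h)

theorem tab (r : ℤ) (hr : r ∈ reps) (s : ℤ) (hs' : s ∈ reps) :
    Splits (r : ℚ_[2]) (s : ℚ_[2]) ↔ hs r s = true := by
  unfold reps at hr hs'
  simp only [List.mem_cons, List.not_mem_nil, or_false] at hr hs'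
  rcases hr with rfl | rfl | rfl | rfl | rfl | rfl | rfl | rfl <;>
    rcases hs' with rfl | rfl | rfl | rfl | rfl | rfl | rfl | rfl
  · exact iff_of_true (pos 1 1 0 1 1 0 (by decide) (by decide) (by decide)) (by decide)
  · exact iff_of_true (pos 1 3 1 0 1 0 (by decide) (by decide) (by decide)) (by decide)
  · exact iff_of_true (pos 1 5 1 0 1 0 (by decide) (by decide) (by decide)) (by decide)
  · exact iff_of_true (pos 1 7 1 0 1 0 (by decide) (by decide) (by decide)) (by decide)
  · exact iff_of_true (pos 1 2 1 0 1 0 (by decide) (by decide) (by decide)) (by decide)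
  · exact iff_of_true (pos 1 6 1 0 1 0 (by decide) (by decide) (by decide)) (by decide)
  · exact iff_of_true (pos 1 10 1 0 1 0 (by decide) (by decide) (by decide)) (by decide)
  · exact iff_of_true (pos 1 14 1 0 1 0 (by decide) (by decide) (by decide)) (by decide)
  · exact iff_of_true (pos 3 1 0 1 1 0 (by decide) (by decide) (by decide)) (by decide)
  · exact iff_of_false (neg 3 3 (by decide) (by decide) (by decide)) (by decide)
  · exact iff_of_true (pos 3 5 2 1 17 0 (by decide) (by decide) (by decide)) (by decide)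
  · exact iff_of_false (neg 3 7 (by decide) (by decide) (by decide)) (by decide)
  · exact iff_of_false (neg 3 2 (by decide) (by decide) (by decide)) (by decide)
  · exact iff_of_true (pos 3 6 1 1 9 0 (by decide) (by decide) (by decide)) (by decide)
  · exact iff_of_false (neg 3 10 (by decide) (by decide) (by decide)) (by decide)
  · exact iff_of_true (pos 3 14 1 1 17 0 (by decide) (by decide) (by decide)) (by decide)
  · exact iff_of_true (pos 5 1 0 1 1 0 (by decide) (by decide) (by decide)) (by decide)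
  · exact iff_of_true (pos 5 3 1 2 17 0 (by decide) (by decide) (by decide)) (by decide)
  · exact iff_of_true (pos 5 5 1 2 25 0 (by decide) (by decide) (by decide)) (by decide)
  · exact iff_of_true (pos 5 7 1 2 33 0 (by decide) (by decide) (by decide)) (by decide)
  · exact iff_of_false (neg 5 2 (by decide) (by decide) (by decide)) (by decide)
  · exact iff_of_false (neg 5 6 (by decide) (by decide) (by decide)) (by decide)
  · exact iff_of_false (neg 5 10 (by decide) (by decide) (by decide)) (by decide)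
  · exact iff_of_false (neg 5 14 (by decide) (by decide) (by decide)) (by decide)
  · exact iff_of_true (pos 7 1 0 1 1 0 (by decide) (by decide) (by decide)) (by decide)
  · exact iff_of_false (neg 7 3 (by decide) (by decide) (by decide)) (by decide)
  · exact iff_of_true (pos 7 5 2 1 33 0 (by decide) (by decide) (by decide)) (by decide)
  · exact iff_of_false (neg 7 7 (by decide) (by decide) (by decide)) (by decide)
  · exact iff_of_true (pos 7 2 1 1 9 0 (by decide) (by decide) (by decide)) (by decide)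
  · exact iff_of_false (neg 7 6 (by decide) (by decide) (by decide)) (by decide)
  · exact iff_of_true (pos 7 10 1 1 17 0 (by decide) (by decide) (by decide)) (by decide)
  · exact iff_of_false (neg 7 14 (by decide) (by decide) (by decide)) (by decide)
  · exact iff_of_true (pos 2 1 0 1 1 0 (by decide) (by decide) (by decide)) (by decide)
  · exact iff_of_false (neg 2 3 (by decide) (by decide) (by decide)) (by decide)
  · exact iff_of_false (neg 2 5 (by decide) (by decide) (by decide)) (by decide)
  · exact iff_of_true (pos 2 7 1 1 9 0 (by decide) (by decide) (by decide)) (by decide)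
  · exact iff_of_true (pos 2 2 1 1 1 1 (by decide) (by decide) (by decide)) (by decide)
  · exact iff_of_false (neg 2 6 (by decide) (by decide) (by decide)) (by decide)
  · exact iff_of_false (neg 2 10 (by decide) (by decide) (by decide)) (by decide)
  · exact iff_of_true (pos 2 14 1 1 1 2 (by decide) (by decide) (by decide)) (by decide)
  · exact iff_of_true (pos 6 1 0 1 1 0 (by decide) (by decide) (by decide)) (by decide)
  · exact iff_of_true (pos 6 3 1 1 9 0 (by decide) (by decide) (by decide)) (by decide)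
  · exact iff_of_false (neg 6 5 (by decide) (by decide) (by decide)) (by decide)
  · exact iff_of_false (neg 6 7 (by decide) (by decide) (by decide)) (by decide)
  · exact iff_of_false (neg 6 2 (by decide) (by decide) (by decide)) (by decide)
  · exact iff_of_false (neg 6 6 (by decide) (by decide) (by decide)) (by decide)
  · exact iff_of_true (pos 6 10 1 1 1 2 (by decide) (by decide) (by decide)) (by decide)
  · exact iff_of_true (pos 6 14 1 3 33 1 (by decide) (by decide) (by decide)) (by decide)
  · exact iff_of_true (pos 10 1 0 1 1 0 (by decide) (by decide) (by decide)) (by decide)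
  · exact iff_of_false (neg 10 3 (by decide) (by decide) (by decide)) (by decide)
  · exact iff_of_false (neg 10 5 (by decide) (by decide) (by decide)) (by decide)
  · exact iff_of_true (pos 10 7 1 1 17 0 (by decide) (by decide) (by decide)) (by decide)
  · exact iff_of_false (neg 10 2 (by decide) (by decide) (by decide)) (by decide)
  · exact iff_of_true (pos 10 6 1 1 1 2 (by decide) (by decide) (by decide)) (by decide)
  · exact iff_of_true (pos 10 10 1 3 25 1 (by decide) (by decide) (by decide)) (by decide)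
  · exact iff_of_false (neg 10 14 (by decide) (by decide) (by decide)) (by decide)
  · exact iff_of_true (pos 14 1 0 1 1 0 (by decide) (by decide) (by decide)) (by decide)
  · exact iff_of_true (pos 14 3 1 1 17 0 (by decide) (by decide) (by decide)) (by decide)
  · exact iff_of_false (neg 14 5 (by decide) (by decide) (by decide)) (by decide)
  · exact iff_of_false (neg 14 7 (by decide) (by decide) (by decide)) (by decide)
  · exact iff_of_true (pos 14 2 1 1 1 2 (by decide) (by decide) (by decide)) (by decide)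
  · exact iff_of_true (pos 14 6 1 3 17 1 (by decide) (by decide) (by decide)) (by decide)
  · exact iff_of_false (neg 14 10 (by decide) (by decide) (by decide)) (by decide)
  · exact iff_of_false (neg 14 14 (by decide) (by decide) (by decide)) (by decide)

theorem chk1 : ∀ s ∈ reps, ∀ t ∈ reps, (w4 (s * t) % 2 = 1 ∨ w4 (s * t) % 4 = 2) ∧
    rp (s * t) ∈ reps := by decide

theorem chk2 : ∀ r ∈ reps, ∀ s ∈ reps, ∀ t ∈ reps,
    (hs r (rp (s * t)) = true ↔ (hs r s = true ↔ hs r t = true)) := by decide

theorem bilt_ : Pool.Agent.W313.HB.S_BILT := by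
  intro a b c ha hb hc
  obtain ⟨r, hr, har⟩ := rep_exists a ha
  obtain ⟨s, hs', hbs⟩ := rep_exists b hb
  obtain ⟨t, ht, hct⟩ := rep_exists c hc
  have hbc : Rep (b * c) (rp (s * t)) := rep_trans (rep_mul hbs hct) (rep_rp (chk1 s hs' t ht).1)
  rw [splits_rep har hbc, splits_rep har hbs, splits_rep har hct, tab r hr s hs', tab r hr t ht,
    tab r hr _ (chk1 s hs' t ht).2]
  exact chk2 r hr s hs' t ht

end Pool.Agent.W864.HBm
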